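import Pool.Agent.Work.MP_3e1351_al.Ct.Main

open Pool.Agent.Work.MP_3e1351_al

/-- For every metric space `X` and every `q > 2` the isometry group of `X` acts continuously by
affine isometries on a Banach space of cotype `q` that contains an equivariant bi-Lipschitz copy of
the snowflake of `X` with exponent `1 - 2 / q`. For the rational Urysohn space all orbits are
unbounded. -/
theorem Pool.Agent.Work.MP_3e1351_al.Parked.finiteCotype (X : Type) [MetricSpace X] [Nonempty X]
    (q : ℝ) (hq : 2 < q) :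
    ∃ (E : Type) (_ : NormedAddCommGroup E) (_ : NormedSpace ℝ E) (_ : CompleteSpace E)
      (α : (X ≃ᵢ X) →* (E ≃ᵃⁱ[ℝ] E)) (ι : X → E) (K : ℝ),
      HasCotype q E ∧ IsContinuousAction α ∧ (∀ g x, α g (ι x) = ι (g x)) ∧
      (∀ x y, dist x y ^ (1 - 2 / q) / 2 ≤ dist (ι x) (ι y) ∧
        dist (ι x) (ι y) ≤ K * dist x y ^ (1 - 2 / q)) ∧
      (IsRationalUrysohn X → ∀ (v : E) (R : ℝ), ∃ g, R < dist (α g v) v) :=
  Ct.main X q hq
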